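import Pool.Agent.Helper46.WP.St
import Pool.Agent.Helper20.W.RED

/-!
# Reduction of the visible block form to the visible configuration, dimension `g + k`
-/

set_option autoImplicit false

namespace Pool.Agent.Helper46.WP

open Finset Pool.Agent.Helper69.RK Pool.Agent.Helper61.GL Pool.Agent.Helper46.WF
open Pool.Agent.Helper92.W (fl srp DL red_un red_disint red_mean12 red_Pw_cw red_srp_cw red_num3)

section core

variable {Ω φ : Type} [Fintype Ω]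

theorem redp_mono {g k n s : ℕ} {e e' c : ℝ} {μ : Ω → ℝ} {z : Ω → ℝ} {X Y : Ω → Fin (g + k) → ℝ}
    (h : CfgP g k n s e c μ z X Y) (he : e ≤ e') : CfgP g k n s e' c μ z X Y := by
  have hn : (0 : ℝ) ≤ n := Nat.cast_nonneg n
  have hen : e * n ≤ e' * n := mul_le_mul_of_nonneg_right he hn
  refine ⟨h.nn, h.ms, h.zb, h.xb, h.yb, h.ang, ?_, ?_, ?_, ?_, ?_, ?_⟩
  · linarith [h.i1]
  · linarith [h.i2]
  · linarith [h.i3]
  · linarith [h.tx]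
  · linarith [h.ty]
  · refine le_trans (Pw_mono μ h.nn ?_) (le_trans h.un he)
    rintro ω _ ⟨a, b, h1, h2, h3⟩
    exact ⟨a, b, h1, h2, by linarith⟩

theorem redp_fl_bd {n : ℕ} {x : ℝ} (hx : |x| ≤ 32) :
    -(32 * (2 : ℝ) ^ n) ≤ (fl n x : ℝ) ∧ (fl n x : ℝ) ≤ 32 * (2 : ℝ) ^ n := by
  have h2 : (0 : ℝ) < 2 ^ n := by positivity
  rw [abs_le] at hx
  have h3 : (fl n x : ℝ) ≤ (2 : ℝ) ^ n * x := Int.floor_le _
  constructor
  · have h4 : -(32 * (2 : ℤ) ^ n) ≤ fl n x := by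
      unfold fl
      rw [Int.le_floor]
      push_cast
      nlinarith
    exact_mod_cast h4
  · nlinarith

/-- entropy of the digits of bounded variables -/
theorem redp_Hh_dgs (w : Ω → ℝ) (hw : ∀ ω, 0 ≤ w ω) (hm : ∑ ω, w ω = 1) {g p : ℕ} (n : ℕ)
    (e : Fin g → Fin p) (X : Ω → Fin p → ℝ) (hX : ∀ ω i, |X ω i| ≤ 32) :
    Hh w (fun ω => dgs n e (X ω)) ≤ g * ((n : ℝ) + 7) := by
  have h1 := st_E3.2 Ω Unit g w (fun ω => dgs n e (X ω)) (fun _ => ()) (64 * 2 ^ n) hw (by positivity) (by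
    intro ω ω' _ _ _ i
    obtain ⟨a1, a2⟩ := redp_fl_bd (n := n) (hX ω (e i))
    obtain ⟨a3, a4⟩ := redp_fl_bd (n := n) (hX ω' (e i))
    show |(fl n (X ω (e i)) : ℝ) - fl n (X ω' (e i))| ≤ 64 * 2 ^ n
    rw [abs_le]
    constructor <;> linarith)
  have h2 : mass w = 1 := hm
  rw [h2, mul_one] at h1
  refine le_trans h1 (mul_le_mul_of_nonneg_left ?_ (Nat.cast_nonneg g))
  have h3 : (1 : ℝ) ≤ 2 ^ n := one_le_pow₀ (by norm_num)
  have h4 : Real.logb 2 (64 * 2 ^ n + 1) ≤ Real.logb 2 ((2 : ℝ) ^ (n + 7)) := by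
    apply Real.logb_le_logb_of_le (by norm_num) (by positivity)
    rw [pow_add]; norm_num; linarith
  rw [logb_two_pow] at h4
  push_cast at h4
  exact h4

theorem redp_core {g k n : ℕ} {η c κ ε e : ℝ} (μ : Ω → ℝ) (F : Ω → φ) (s : φ → ℕ) (z : Ω → ℝ)
    (X Y : Ω → Fin (g + k) → ℝ) (hB : VBlk g k n η c μ F s z X Y) (hs : ∀ ω, (s (F ω) : ℝ) ≤ κ * n)
    (hε : 0 < ε) (he : 0 < e) (hη : η ≤ ε * e / 100) (hn : 1 ≤ n)
    (h1 : 7 * (g : ℝ) + 1 ≤ ε * e / 100 * n) (h2 : 7 * (k : ℝ) + 1 ≤ ε * e / 100 * n)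
    (h3 : ((n : ℝ) + 1) ^ 2 * (2 : ℝ) ^ (-((e - η) * n)) ≤ ε * e / 100)
    (hbad : ε < Pw μ (fun ω => 1 / 8 ≤ |dp (X ω) (Y ω)|)) :
    ∃ (s : ℕ) (w : Ω → ℝ), (s : ℝ) ≤ κ * n ∧ CfgP g k n s e c w z X Y := by
  classical
  obtain ⟨hμ, hms, hzb, hxb, hyb, hi1, hi2, hi3, htx, hty, hun⟩ := hB
  have hm' : ∑ ω, μ ω = 1 := hms
  have hnp : (0 : ℝ) < n := by exact_mod_cast (by omega : 0 < n)
  have hen : 0 < e * n := mul_pos he hnp
  have hg0 : (0 : ℝ) ≤ g := Nat.cast_nonneg g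
  have hk0 : (0 : ℝ) ≤ k := Nat.cast_nonneg k
  -- label
  let L : Ω → ℤ := fun ω => if 1 / 8 ≤ |dp (X ω) (Y ω)| then 1 else 0
  let G : Ω → ℤ × φ := fun ω => (L ω, F ω)
  have hL01 : ∀ ω, L ω = 0 ∨ L ω = 1 := by
    intro ω
    by_cases h : 1 / 8 ≤ |dp (X ω) (Y ω)|
    · right; exact if_pos h
    · left; exact if_neg h
  have hL : ∀ {γ : Type} (H : Ω → γ), CH μ L H ≤ 1 := by
    intro γ H
    have k1 := ch_int μ hμ L H 1 (by norm_num) (by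
      intro ω ω' _ _ _
      rcases hL01 ω with a | a <;> rcases hL01 ω' with b | b <;> rw [a, b] <;> norm_num)
    rw [hms, mul_one] at k1
    have k2 : Real.logb 2 (1 + 1) = 1 := by
      rw [show (1 : ℝ) + 1 = 2 by norm_num]; exact Real.logb_self_eq_one (by norm_num)
    rwa [k2] at k1
  have hG : ∀ ω ω', X ω = X ω' → Y ω = Y ω' → F ω = F ω' → G ω = G ω' := by
    intro ω ω' a b d
    show ((if 1 / 8 ≤ |dp (X ω) (Y ω)| then (1 : ℤ) else 0), F ω) =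
      ((if 1 / 8 ≤ |dp (X ω') (Y ω')| then (1 : ℤ) else 0), F ω')
    rw [a, b, d]
  have hG' : ∀ ω ω', G ω = G ω' → F ω = F ω' := fun ω ω' hh => (Prod.mk.inj hh).2
  -- the local losses
  let D1 : Ω → ℝ := fun ω => Hh (cw μ G ω) (fun ω' => fl n (z ω')) -
    CH (cw μ G ω) (fun ω' => fl n (z ω')) (fun ω' => (X ω', Y ω'))
  let D2 : Ω → ℝ := fun ω => Hh (cw μ G ω) (fun ω' => fl n (z ω' + dp (X ω') (Y ω') / 2 ^ s (F ω'))) -
    CH (cw μ G ω) (fun ω' => fl n (z ω' + dp (X ω') (Y ω') / 2 ^ s (F ω'))) (fun ω' => (X ω', Y ω'))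
  let D3 : Ω → ℝ := fun ω => Hh (cw μ G ω) X - CH (cw μ G ω) X Y
  let D4 : Ω → ℝ := fun ω => (g : ℝ) * ((n : ℝ) + 7) -
    Hh (cw μ G ω) (fun ω => dgs n (Fin.castAdd k : Fin g → Fin (g + k)) (X ω))
  let D5 : Ω → ℝ := fun ω => (k : ℝ) * ((n : ℝ) + 7) -
    Hh (cw μ G ω) (fun ω => dgs n (Fin.natAdd g : Fin k → Fin (g + k)) (Y ω))
  let B : Ω → Prop := fun ω => ∃ a b : ℕ, a ≤ b ∧ b ≤ n ∧ (1 - c) * ((b : ℝ) - a) + e * n <
      srp μ (fun ω' => fl b (z ω')) (fun ω' => (fl a (z ω'), G ω')) ω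
  let D6 : Ω → ℝ := fun ω => Pw (cw μ G ω) B
  have hnn : ∀ {α β : Type} (f : Ω → α) (g : Ω → β) (ω : Ω),
      0 ≤ Hh (cw μ G ω) f - CH (cw μ G ω) f g := by
    intro α β f g ω
    have := ch_cond (cw μ G ω) (cw_nonneg μ G hμ ω) f (fun _ => ()) g (fun _ _ _ _ _ => rfl)
    unfold Hh; linarith
  have m1 : ∑ ω, μ ω * D1 ω ≤ η * n := red_mean12 μ hμ _ X Y F G hG hG' hi1
  have m2 : ∑ ω, μ ω * D2 ω ≤ η * n := red_mean12 μ hμ _ X Y F G hG hG' hi2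
  have m3 : ∑ ω, μ ω * D3 ω ≤ η * n + 1 := by
    have e1 : ∑ ω, μ ω * D3 ω = CH μ X G - CH μ X (fun ω => (Y ω, G ω)) := by
      rw [red_disint μ hμ X Y G, CH_disint μ hμ, ← sum_sub_distrib]
      refine sum_congr rfl fun ω _ => ?_
      show μ ω * (_ - _) = _
      ring
    rw [e1]
    have b1 : CH μ X G ≤ CH μ X F := by
      apply ch_cond μ hμ
      intro ω ω' _ _ h; exact (Prod.mk.inj h).2
    have b2 := ch_symm μ X L (fun ω => (Y ω, F ω))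
    have b3 := ch_nonneg μ hμ L (fun ω => (X ω, Y ω, F ω))
    have b4 := hL (fun ω => (Y ω, F ω))
    have b5 : CH μ X (fun ω => (L ω, Y ω, F ω)) = CH μ X (fun ω => (Y ω, G ω)) := by
      apply ch_congr_right
      intro ω ω' _ _
      show ((L ω, Y ω, F ω) = (L ω', Y ω', F ω') ↔ (Y ω, (L ω, F ω)) = (Y ω', (L ω', F ω')))
      simp only [Prod.mk.injEq]
      tauto
    linarith
  have m45 : ∀ {p : ℕ} (f : Ω → Fin p → ℤ), ((p : ℝ) - η) * n ≤ CH μ f F →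
      ∑ ω, μ ω * ((p : ℝ) * ((n : ℝ) + 7) - Hh (cw μ G ω) f) ≤ η * n + (7 * p + 1) := by
    intro p f hT
    have e1 : ∑ ω, μ ω * ((p : ℝ) * ((n : ℝ) + 7) - Hh (cw μ G ω) f) =
        (p : ℝ) * ((n : ℝ) + 7) - CH μ f G := by
      rw [CH_disint μ hμ]
      have : ∀ ω, μ ω * ((p : ℝ) * ((n : ℝ) + 7) - Hh (cw μ G ω) f) =
          μ ω * ((p : ℝ) * ((n : ℝ) + 7)) - μ ω * Hh (cw μ G ω) f := by
        intro ω; ring
      rw [sum_congr rfl (fun ω _ => this ω), sum_sub_distrib, ← sum_mul, hm', one_mul]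
    have e2 := ch_symm μ f L F
    have e3 := ch_nonneg μ hμ L (fun ω => (f ω, F ω))
    have e4 := hL F
    have e5 : CH μ f G = CH μ f (fun ω => (L ω, F ω)) := rfl
    rw [e1, e5]; linarith
  have m4 := m45 _ htx
  have m5 := m45 _ hty
  have m6 : ∑ ω, μ ω * D6 ω ≤ ε * e / 50 := by
    have e1 : ∑ ω, μ ω * D6 ω = Pw μ B := red_Pw_cw μ hμ G B
    have e2 := red_un μ hμ hms z F G hG' n c η e hun
    rw [e1]
    have e3 : Pw μ B ≤ η + ((n : ℝ) + 1) ^ 2 * (2 : ℝ) ^ (-((e - η) * n)) := e2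
    linarith
  -- probabilities
  have hηn : η * n ≤ ε * e / 100 * n := mul_le_mul_of_nonneg_right hη hnp.le
  have hQ : 0 < ε * e * n := mul_pos (mul_pos hε he) hnp
  have p1 : Pw μ (fun ω => e * n < D1 ω) ≤ ε / 16 := by
    refine le_trans (Pw_markov μ hμ D1 (fun ω _ => hnn _ _ ω) hen m1) ?_
    rw [div_le_iff₀ hen]; linarith
  have p2 : Pw μ (fun ω => e * n < D2 ω) ≤ ε / 16 := by
    refine le_trans (Pw_markov μ hμ D2 (fun ω _ => hnn _ _ ω) hen m2) ?_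
    rw [div_le_iff₀ hen]; linarith
  have p3 : Pw μ (fun ω => e * n < D3 ω) ≤ ε / 16 := by
    refine le_trans (Pw_markov μ hμ D3 (fun ω _ => hnn _ _ ω) hen m3) ?_
    rw [div_le_iff₀ hen]; linarith
  have p4 : Pw μ (fun ω => e * n < D4 ω) ≤ ε / 16 := by
    refine le_trans (Pw_markov μ hμ D4 (fun ω hω => ?_) hen m4) ?_
    · have := redp_Hh_dgs (cw μ G ω) (cw_nonneg μ G hμ ω) (cw_sum μ G hμ ω hω) n
        (Fin.castAdd k : Fin g → Fin (g + k)) X hxb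
      show 0 ≤ (g : ℝ) * ((n : ℝ) + 7) - _
      linarith
    · rw [div_le_iff₀ hen]; linarith
  have p5 : Pw μ (fun ω => e * n < D5 ω) ≤ ε / 16 := by
    refine le_trans (Pw_markov μ hμ D5 (fun ω hω => ?_) hen m5) ?_
    · have := redp_Hh_dgs (cw μ G ω) (cw_nonneg μ G hμ ω) (cw_sum μ G hμ ω hω) n
        (Fin.natAdd g : Fin k → Fin (g + k)) Y hyb
      show 0 ≤ (k : ℝ) * ((n : ℝ) + 7) - _
      linarith
    · rw [div_le_iff₀ hen]; linarith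
  have p6 : Pw μ (fun ω => e < D6 ω) ≤ ε / 16 := by
    refine le_trans (Pw_markov μ hμ D6 (fun ω _ => Pw_nonneg _ (cw_nonneg μ G hμ ω) _) he m6) ?_
    rw [div_le_iff₀ he]; linarith [mul_pos hε he]
  -- the good point
  let Gd : Ω → Prop := fun ω => 1 / 8 ≤ |dp (X ω) (Y ω)| ∧ D1 ω ≤ e * n ∧ D2 ω ≤ e * n ∧ D3 ω ≤ e * n ∧
    D4 ω ≤ e * n ∧ D5 ω ≤ e * n ∧ D6 ω ≤ e
  have hgd : 0 < Pw μ Gd := by
    have u1 : Pw μ (fun ω => 1 / 8 ≤ |dp (X ω) (Y ω)|) ≤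
        Pw μ (fun ω => Gd ω ∨ (e * n < D1 ω ∨ (e * n < D2 ω ∨ (e * n < D3 ω ∨ (e * n < D4 ω ∨
          (e * n < D5 ω ∨ e < D6 ω)))))) := by
      apply Pw_mono μ hμ
      intro ω _ hω
      by_contra hc
      push Not at hc
      obtain ⟨c1, c4, c5, c6, c7, c8, c9⟩ := hc
      exact c1 ⟨hω, c4, c5, c6, c7, c8, c9⟩
    have o1 := Pw_or μ hμ Gd (fun ω => (e * n < D1 ω ∨ (e * n < D2 ω ∨ (e * n < D3 ω ∨
      (e * n < D4 ω ∨ (e * n < D5 ω ∨ e < D6 ω))))))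
    have o4 := Pw_or μ hμ (fun ω => e * n < D1 ω) (fun ω =>
      (e * n < D2 ω ∨ (e * n < D3 ω ∨ (e * n < D4 ω ∨ (e * n < D5 ω ∨ e < D6 ω)))))
    have o5 := Pw_or μ hμ (fun ω => e * n < D2 ω) (fun ω =>
      (e * n < D3 ω ∨ (e * n < D4 ω ∨ (e * n < D5 ω ∨ e < D6 ω))))
    have o6 := Pw_or μ hμ (fun ω => e * n < D3 ω) (fun ω =>
      (e * n < D4 ω ∨ (e * n < D5 ω ∨ e < D6 ω)))
    have o7 := Pw_or μ hμ (fun ω => e * n < D4 ω) (fun ω => (e * n < D5 ω ∨ e < D6 ω))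
    have o8 := Pw_or μ hμ (fun ω => e * n < D5 ω) (fun ω => e < D6 ω)
    linarith
  obtain ⟨ω0, hω0, hE0, q1, q2, q3, q4, q5, q6⟩ := Pw_exists μ hgd
  -- the configuration
  have hw := cw_nonneg μ G hμ ω0
  have hws := cw_sum μ G hμ ω0 hω0
  have hL0 : L ω0 = 1 := if_pos hE0
  have hsup : ∀ ω, cw μ G ω0 ω ≠ 0 → μ ω ≠ 0 ∧ G ω = G ω0 ∧ F ω = F ω0 ∧ 1 / 8 ≤ |dp (X ω) (Y ω)| := by
    intro ω hω
    obtain ⟨a1, a2⟩ := cw_ne_zero μ G hω
    have a3 : L ω = L ω0 := (Prod.mk.inj a1).1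
    have a4 : F ω = F ω0 := (Prod.mk.inj a1).2
    refine ⟨a2, a1, a4, ?_⟩
    by_contra hc
    have a5 : L ω = 0 := if_neg hc
    rw [a5, hL0] at a3
    norm_num at a3
  refine ⟨s (F ω0), cw μ G ω0, hs ω0, hw, hws, hzb, hxb, hyb, ?_, ?_, ?_, ?_, ?_, ?_, ?_⟩
  · intro ω hω; exact (hsup ω hω).2.2.2
  · have e2 : D1 ω0 = Hh (cw μ G ω0) (fun ω' => fl n (z ω')) -
      CH (cw μ G ω0) (fun ω' => fl n (z ω')) (fun ω' => (X ω', Y ω')) := rfl
    rw [e2] at q1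
    linarith
  · have e0 : ∀ {γ : Type} (g : Ω → γ), CH (cw μ G ω0) (fun ω => fl n (z ω +
        dp (X ω) (Y ω) / 2 ^ s (F ω0))) g =
        CH (cw μ G ω0) (fun ω => fl n (z ω + dp (X ω) (Y ω) / 2 ^ s (F ω))) g := by
      intro γ g
      apply ch_congr_left
      intro ω ω' h h' _
      simp only [(hsup ω h).2.2.1, (hsup ω' h').2.2.1]
    have e2 : D2 ω0 = Hh (cw μ G ω0) (fun ω' => fl n (z ω' + dp (X ω') (Y ω') / 2 ^ s (F ω'))) -
      CH (cw μ G ω0) (fun ω' => fl n (z ω' + dp (X ω') (Y ω') / 2 ^ s (F ω')))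
        (fun ω' => (X ω', Y ω')) := rfl
    rw [e2] at q2
    unfold Hh at q2 ⊢
    rw [e0, e0]
    linarith
  · have e4 : D3 ω0 = Hh (cw μ G ω0) X - CH (cw μ G ω0) X Y := rfl
    rw [e4] at q3
    linarith
  · have e2 : D4 ω0 = (g : ℝ) * ((n : ℝ) + 7) -
      Hh (cw μ G ω0) (fun ω => dgs n (Fin.castAdd k : Fin g → Fin (g + k)) (X ω)) := rfl
    rw [e2] at q4
    linarith
  · have e2 : D5 ω0 = (k : ℝ) * ((n : ℝ) + 7) -
      Hh (cw μ G ω0) (fun ω => dgs n (Fin.natAdd g : Fin k → Fin (g + k)) (Y ω)) := rfl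
    rw [e2] at q5
    linarith
  · refine le_trans (Pw_mono _ hw ?_) q6
    intro ω hω hh
    obtain ⟨a, b, hab, hbn, hlt⟩ := hh
    obtain ⟨g0, g1, _⟩ := hsup ω hω
    refine ⟨a, b, hab, hbn, ?_⟩
    rwa [red_srp_cw μ hμ (fun ω' => fl b (z ω')) (fun ω' => fl a (z ω')) G ω0 ω hω0 g0 g1] at hlt

end core

/-- **the visible block form follows from the non-existence of the visible configuration** -/
theorem st_REDP : ST_REDP := by
  intro hC g k c κ ε hc hc1 hκ0 hκ hε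
  obtain ⟨e, he, n1, hn1⟩ := hC g k c κ hc hc1 hκ0 hκ
  -- the precision
  let η : ℝ := min (ε * e / 100) (e / 2)
  have hη0 : 0 < η := lt_min (by positivity) (by positivity)
  have hηa : η ≤ ε * e / 100 := min_le_left _ _
  have hηb : η ≤ e / 2 := min_le_right _ _
  obtain ⟨nc, hnc⟩ := red_num3 (e := e / 2) (δ := ε * e / 100) (by positivity) (by positivity)
  obtain ⟨na, hna⟩ := exists_nat_ge ((7 * (g : ℝ) + 1) / (ε * e / 100))
  obtain ⟨nb, hnb⟩ := exists_nat_ge ((7 * (k : ℝ) + 1) / (ε * e / 100))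
  refine ⟨η, hη0, n1 + na + nb + nc + 1, fun n hn Ω φ _ μ F s z X Y hB hs => ?_⟩
  by_contra hbad
  rw [not_le] at hbad
  have hnp : (0 : ℝ) < n := by exact_mod_cast (by omega : 0 < n)
  have hp : 0 < ε * e / 100 := by positivity
  have g1 : 7 * (g : ℝ) + 1 ≤ ε * e / 100 * n := by
    have : (7 * (g : ℝ) + 1) / (ε * e / 100) ≤ n := le_trans hna (by exact_mod_cast (by omega : na ≤ n))
    rw [div_le_iff₀ hp] at this
    linarith
  have g2 : 7 * (k : ℝ) + 1 ≤ ε * e / 100 * n := by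
    have : (7 * (k : ℝ) + 1) / (ε * e / 100) ≤ n := le_trans hnb (by exact_mod_cast (by omega : nb ≤ n))
    rw [div_le_iff₀ hp] at this
    linarith
  have g3 : ((n : ℝ) + 1) ^ 2 * (2 : ℝ) ^ (-((e - η) * n)) ≤ ε * e / 100 := by
    refine le_trans (mul_le_mul_of_nonneg_left ?_ (by positivity)) (hnc n (by omega))
    apply Real.rpow_le_rpow_of_exponent_le (by norm_num)
    have : e / 2 * n ≤ (e - η) * n := mul_le_mul_of_nonneg_right (by linarith) hnp.le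
    linarith
  obtain ⟨s', w, hs', hcfg⟩ := redp_core μ F s z X Y hB hs hε he hηa (by omega) g1 g2 g3 hbad
  exact hn1 n s' (by omega) hs' Ω w z X Y hcfg

end Pool.Agent.Helper46.WP
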